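import Pool.Agent.H906R3.Core

/-!
# Representation functions of asymptotic bases stay away from almost periodic functions

Let `A` be an asymptotic basis of order `h ≥ 2` and let `r(n)` be the number of multisets of `h`
elements of `A` with sum `n`.  If the mean square distance between `r` and some function `P` is
smaller than `(1 - 1/h)` times the mean of `r`, and `P` is almost periodic in the sense of
Besicovitch, or more generally mean-square rigid along a set of shifts of size at least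
`C M ^ (1 - 1/h)` in `[0, M)`, then `r` is unbounded.
-/

set_option autoImplicit false

open Finset Filter

namespace Pool.Agent.Results.MP_d5a1e1_nt.AlmostPeriodicGap

/-- The unordered representation function `r_{A,h}(n)`: the number of multisets of `h` elements of
`A` with sum `n`. -/
noncomputable def r (A : Set ℕ) (h n : ℕ) : ℕ :=
  Set.ncard {s : Multiset ℕ | Multiset.card s = h ∧ (∀ a ∈ s, a ∈ A) ∧ s.sum = n}

/-- `P` is mean-square rigid with exponent `α`: for all `ε > 0` and `C` there are `M ≥ 1` and a set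
`S ⊆ {0, …, M - 1}` of at least `C M ^ α` shifts such that for each `τ ∈ S` the mean square of
`P (n + τ) - P n` over `n < N` is at most `ε` for all large `N`. -/
def MeanSqRigid (α : ℝ) (P : ℕ → ℝ) : Prop :=
  ∀ ε : ℝ, 0 < ε → ∀ C : ℝ, ∃ (M : ℕ) (S : Finset ℕ), 1 ≤ M ∧ S ⊆ range M ∧
    C * (M : ℝ) ^ α ≤ S.card ∧
    ∀ τ ∈ S, ∀ᶠ N : ℕ in atTop, ∑ n ∈ range N, (P (n + τ) - P n) ^ 2 ≤ ε * N

/-- Bohr almost periodic functions on `ℕ`: for every `ε > 0` the `ε`-periods are relatively
dense. -/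
def BohrAP (Q : ℕ → ℝ) : Prop :=
  ∀ ε : ℝ, 0 < ε → ∃ l : ℕ, ∀ a : ℕ, ∃ τ : ℕ, a ≤ τ ∧ τ < a + l ∧ ∀ n, |Q (n + τ) - Q n| ≤ ε

/-- Besicovitch almost periodic functions on `ℕ` (exponent `2`): limits of Bohr almost periodic
functions for the upper mean square distance. -/
def BesicovitchAP (P : ℕ → ℝ) : Prop :=
  ∀ ε : ℝ, 0 < ε → ∃ Q : ℕ → ℝ, BohrAP Q ∧
    ∀ᶠ N : ℕ in atTop, ∑ n ∈ range N, (P n - Q n) ^ 2 ≤ ε * N

theorem besicovitch_rigid (P : ℕ → ℝ) (hP : BesicovitchAP P) (α : ℝ) (hα : α < 1) :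
    MeanSqRigid α P := by
  classical
  intro ε hε C
  obtain ⟨Q, hQ, hPQ⟩ := hP (ε / 12) (by positivity)
  obtain ⟨δ, hδ0, hδ1⟩ : ∃ δ : ℝ, 0 < δ ∧ δ ^ 2 ≤ ε / 12 := by
    refine ⟨min 1 (ε / 12), lt_min one_pos (by positivity), ?_⟩
    have h1 : min 1 (ε / 12) ≤ 1 := min_le_left _ _
    have h2 : min 1 (ε / 12) ≤ ε / 12 := min_le_right _ _
    have h3 : 0 < min 1 (ε / 12) := lt_min one_pos (by positivity)
    calc (min 1 (ε / 12)) ^ 2 = min 1 (ε / 12) * min 1 (ε / 12) := pow_two _
      _ ≤ 1 * (ε / 12) := mul_le_mul h1 h2 h3.le zero_le_one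
      _ = ε / 12 := one_mul _
  obtain ⟨l, hl⟩ := hQ δ hδ0
  have hl1 : 1 ≤ l := by
    obtain ⟨τ, _, h2, _⟩ := hl 0
    omega
  have hlr : (1 : ℝ) ≤ l := by exact_mod_cast hl1
  have hl0 : (0 : ℝ) < l := by linarith
  -- choose q
  have hlim : Tendsto (fun q : ℕ => (q : ℝ) ^ (1 - α)) atTop atTop :=
    (tendsto_rpow_atTop (by linarith)).comp tendsto_natCast_atTop_atTop
  obtain ⟨q, hq1, hqC⟩ := ((eventually_ge_atTop 1).and
    (hlim.eventually_ge_atTop (C * (l : ℝ) ^ α))).exists
  have hqr : (1 : ℝ) ≤ q := by exact_mod_cast hq1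
  have hq0 : (0 : ℝ) < q := by linarith
  set S : Finset ℕ := (range (q * l)).filter (fun τ => ∀ n, |Q (n + τ) - Q n| ≤ δ) with hS
  refine ⟨q * l, S, Nat.mul_pos (by omega) (by omega), Finset.filter_subset _ _, ?_, ?_⟩
  · -- many elements
    choose f hf1 hf2 hf3 using fun j : ℕ => hl (j * l)
    have h1 : q ≤ S.card := by
      have h2 : (range q).image f ⊆ S := by
        intro t ht
        rw [Finset.mem_image] at ht
        obtain ⟨j, hj, rfl⟩ := ht
        rw [Finset.mem_range] at hj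
        rw [hS, Finset.mem_filter, Finset.mem_range]
        refine ⟨?_, hf3 j⟩
        have h3 := hf2 j
        have h4 : (j + 1) * l ≤ q * l := Nat.mul_le_mul_right l hj
        have h5 : (j + 1) * l = j * l + l := by ring
        omega
      have h3 := Finset.card_le_card h2
      rw [Finset.card_image_of_injOn, card_range] at h3
      · exact h3
      · intro i _ j _ hij
        have hij' : f i = f j := hij
        have a1 := hf1 i
        have a2 := hf2 i
        have a3 := hf1 j
        have a4 := hf2 j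
        rcases lt_trichotomy i j with h | h | h
        · exfalso
          have : (i + 1) * l ≤ j * l := Nat.mul_le_mul_right l h
          have h5 : (i + 1) * l = i * l + l := by ring
          omega
        · exact h
        · exfalso
          have : (j + 1) * l ≤ i * l := Nat.mul_le_mul_right l h
          have h5 : (j + 1) * l = j * l + l := by ring
          omega
    have h2 : (q : ℝ) ≤ S.card := by exact_mod_cast h1
    refine le_trans ?_ h2
    push_cast
    rw [Real.mul_rpow hq0.le hl0.le]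
    calc C * ((q : ℝ) ^ α * (l : ℝ) ^ α) = (C * (l : ℝ) ^ α) * (q : ℝ) ^ α := by ring
      _ ≤ (q : ℝ) ^ (1 - α) * (q : ℝ) ^ α := mul_le_mul_of_nonneg_right hqC (by positivity)
      _ = q := by rw [← Real.rpow_add hq0, sub_add_cancel, Real.rpow_one]
  · intro τ hτ
    rw [hS, Finset.mem_filter] at hτ
    rw [eventually_atTop] at hPQ
    obtain ⟨N0, hN0⟩ := hPQ
    filter_upwards [eventually_ge_atTop (N0 + τ)] with N hN
    have h1 := hN0 N (by omega)
    have h2 := hN0 (N + τ) (by omega)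
    have h3 : ∑ n ∈ range N, (P (n + τ) - Q (n + τ)) ^ 2 ≤
        ∑ n ∈ range (N + τ), (P n - Q n) ^ 2 := by
      have h4 : ∑ n ∈ range N, (P (n + τ) - Q (n + τ)) ^ 2
          = ∑ n ∈ Finset.Ico τ (N + τ), (P n - Q n) ^ 2 := by
        rw [Finset.sum_Ico_eq_sum_range]
        have : N + τ - τ = N := by omega
        rw [this]
        apply Finset.sum_congr rfl
        intro n _
        rw [add_comm n τ]
      rw [h4, Finset.range_eq_Ico]
      apply Finset.sum_le_sum_of_subset_of_nonneg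
      · exact Finset.Ico_subset_Ico_left (Nat.zero_le _)
      · intro n _ _
        positivity
    have h5 : ∑ n ∈ range N, (P (n + τ) - P n) ^ 2 ≤ ∑ n ∈ range N,
        (3 * (P (n + τ) - Q (n + τ)) ^ 2 + 3 * (ε / 12) + 3 * (P n - Q n) ^ 2) := by
      apply Finset.sum_le_sum
      intro n _
      have h6 : (Q (n + τ) - Q n) ^ 2 ≤ ε / 12 := by
        calc (Q (n + τ) - Q n) ^ 2 = |Q (n + τ) - Q n| ^ 2 := (sq_abs _).symm
          _ ≤ δ ^ 2 := pow_le_pow_left₀ (abs_nonneg _) (hτ.2 n) 2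
          _ ≤ ε / 12 := hδ1
      have e : P (n + τ) - P n = (P (n + τ) - Q (n + τ)) + (Q (n + τ) - Q n) - (P n - Q n) := by
        ring
      rw [e]
      nlinarith [sq_nonneg ((P (n + τ) - Q (n + τ)) - (Q (n + τ) - Q n)),
        sq_nonneg ((P (n + τ) - Q (n + τ)) + (P n - Q n)),
        sq_nonneg ((Q (n + τ) - Q n) + (P n - Q n))]
    simp only [Finset.sum_add_distrib, ← Finset.mul_sum, Finset.sum_const, card_range,
      nsmul_eq_mul] at h5
    have h7 : (τ : ℝ) ≤ N := by
      have : τ ≤ N := by omega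
      exact_mod_cast this
    push_cast at h2
    have h8 : ε / 12 * (τ : ℝ) ≤ ε / 12 * N := mul_le_mul_of_nonneg_left h7 (by positivity)
    linarith

lemma rigid_clamp (α K : ℝ) (P : ℕ → ℝ) (hP : MeanSqRigid α P) :
    Pool.Agent.H906R3.MeanSqRigid α (fun n => max 0 (min (P n) K)) := by
  intro ε hε C
  obtain ⟨M, S, h1, h2, h3, h4⟩ := hP ε hε C
  refine ⟨M, S, h1, h2, h3, fun τ hτ => ?_⟩
  filter_upwards [h4 τ hτ] with N hN
  refine le_trans (Finset.sum_le_sum fun n _ => ?_) hN
  have h5 : |max 0 (min (P (n + τ)) K) - max 0 (min (P n) K)| ≤ |P (n + τ) - P n| := by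
    calc |max 0 (min (P (n + τ)) K) - max 0 (min (P n) K)|
        ≤ |min (P (n + τ)) K - min (P n) K| := abs_max_sub_max_le_abs _ _ _ |> fun h => by
          simpa [max_comm] using h
      _ ≤ |P (n + τ) - P n| := by
          have := abs_min_sub_min_le_max (P (n + τ)) K (P n) K
          simpa using this
  exact sq_le_sq.2 h5

lemma clamp_close (K P x : ℝ) (hx0 : 0 ≤ x) (hx1 : x ≤ K) :
    (x - max 0 (min P K)) ^ 2 ≤ (x - P) ^ 2 := by
  apply sq_le_sq.2
  have h1 : max 0 (min x K) = x := by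
    rw [min_eq_left hx1, max_eq_right hx0]
  calc |x - max 0 (min P K)| = |max 0 (min x K) - max 0 (min P K)| := by rw [h1]
    _ ≤ |min x K - min P K| := abs_max_sub_max_le_abs _ _ _ |> fun h => by
          simpa [max_comm] using h
    _ ≤ |x - P| := by
          have := abs_min_sub_min_le_max x K P K
          simpa using this

/-- **Main theorem.** Let `A` be an asymptotic basis of order `h ≥ 2`, and let `P` be mean-square
rigid with exponent `1 - 1/h` (for instance Besicovitch almost periodic: second part).  If for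
some `κ < 1 - 1/h` and all large `N`
`∑_{n < N} (r_{A,h}(n) - P(n))² ≤ κ ∑_{n < N} r_{A,h}(n)`,
then `r_{A,h}` is unbounded. -/
theorem result (h : ℕ) (hh : 2 ≤ h) (A : Set ℕ)
    (hA : ∃ n₀ : ℕ, ∀ n : ℕ, n₀ ≤ n →
      ∃ s : Multiset ℕ, Multiset.card s = h ∧ (∀ a ∈ s, a ∈ A) ∧ s.sum = n) :
    (∀ (P : ℕ → ℝ) (κ : ℝ), MeanSqRigid (1 - 1 / h) P → κ < 1 - 1 / h →
      (∀ᶠ N : ℕ in atTop, ∑ n ∈ range N, ((r A h n : ℝ) - P n) ^ 2 ≤
        κ * ∑ n ∈ range N, (r A h n : ℝ)) →
      ∀ C : ℕ, ∃ n, C < r A h n) ∧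
    (∀ P : ℕ → ℝ, BesicovitchAP P → MeanSqRigid (1 - 1 / h) P) := by
  have hh' : (2 : ℝ) ≤ h := by exact_mod_cast hh
  constructor
  · intro P κ hP hκ hclose C
    by_contra hcon
    push Not at hcon
    obtain ⟨g, rfl⟩ : ∃ g, h = g + 2 := ⟨h - 2, by omega⟩
    obtain ⟨n0, hn0⟩ := hA
    have hcast : ((g + 2 : ℕ) : ℝ) = (g : ℝ) + 2 := by push_cast; ring
    rw [hcast] at hP hκ hh'
    have hrep : ∀ n, H396R2.rep A (g + 2) n = r A (g + 2) n := fun _ => rfl
    rw [eventually_atTop] at hclose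
    obtain ⟨N2, hN2⟩ := hclose
    have hβ0 : 0 < 1 - 1 / ((g : ℝ) + 2) := by
      have : 1 / ((g : ℝ) + 2) ≤ 1 / 2 := one_div_le_one_div_of_le (by norm_num) hh'
      linarith
    refine H906R3.core g A n0 ?_ C (fun n => by rw [hrep]; exact hcon n)
      (fun n => max 0 (min (P n) C)) (fun n => le_max_left _ _)
      (fun n => max_le (Nat.cast_nonneg _) (min_le_right _ _)) (rigid_clamp _ C P hP)
      (max 0 κ) (le_max_left _ _) (max_lt hβ0 hκ) N2 ?_
    · intro n hn
      obtain ⟨s, hs⟩ := hn0 n hn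
      rw [hrep]
      have : 0 < r A (g + 2) n := by
        unfold r
        rw [Set.ncard_pos (H396R2.rep_set_finite A (g + 2) n)]
        exact ⟨s, hs⟩
      omega
    · intro N hN
      have h1 := hN2 N hN
      simp_rw [hrep]
      calc ∑ n ∈ range N, ((r A (g + 2) n : ℝ) - max 0 (min (P n) C)) ^ 2
          ≤ ∑ n ∈ range N, ((r A (g + 2) n : ℝ) - P n) ^ 2 := by
            apply Finset.sum_le_sum
            intro n _
            apply clamp_close _ _ _ (Nat.cast_nonneg _)
            exact_mod_cast hcon n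
        _ ≤ κ * ∑ n ∈ range N, (r A (g + 2) n : ℝ) := h1
        _ ≤ max 0 κ * ∑ n ∈ range N, (r A (g + 2) n : ℝ) :=
            mul_le_mul_of_nonneg_right (le_max_right _ _) (by positivity)
  · intro P hP
    have h1 : 0 < 1 / (h : ℝ) := by positivity
    have h2 : 1 / (h : ℝ) ≤ 1 := by rw [div_le_one (by linarith)]; linarith
    exact besicovitch_rigid P hP _ (by linarith)

end Pool.Agent.Results.MP_d5a1e1_nt.AlmostPeriodicGap
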