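import Pool.Agent.H523R4.Union

/-!
# The Erdős–Turán conjecture for bases closed under bitwise operations

`r A h n` is the number of representations of `n` as a sum of `h` elements of `A`, the order of the
summands being disregarded. A set `B` of natural numbers is closed under the bitwise operation
`f : {0,1}^k → {0,1}` if for all `b_1, ..., b_k` in `B` the number whose binary digits are obtained
by applying `f` to the binary digits of `b_1, ..., b_k`, place by place, belongs to `B`.

1. An asymptotic basis of order `h` which is a finite union of sets, each closed under some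
   bitwise operation that is not affine over `F_2`, has `r(n) ≥ n^c` for infinitely many `n`,
   with `c = c(h) > 0`.
2. For `h = 2` it is enough that each of the sets is closed under some bitwise operation that
   depends on at least two variables (for instance `xor`).
3. In 1, the basis property may be replaced by: `B` has at least `N^ε` elements below `N`, for
   infinitely many `N`.

Method. (a) A non-affine operation generates `and`, `or` or the majority function, and after a
translation of the bit vectors the set is closed under `and`. A family of `2^(εn)` subsets of an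
`n`-set which is closed under intersections shatters a set of size `γ n` (Sauer–Shelah), and
contains a cube `c ∪ ⋃_{i ∈ S} D_i`, with `D_i` disjoint, of dimension at least `γ' n`; the sums of
opposite vertices coincide. (b) An affine operation generates `x + y + z`, so the elements below
`2^n` form a coset of a linear code of rate at least `1/2`, up to `O(1/n)`; such a code has a word
`v` of weight at least `9/16` of the number of nonconstant coordinates, up to `O(1)` (a random
word with biased information bits), and the pairs `x, x + v` have few different sums.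
-/

set_option autoImplicit false

namespace Pool.Agent.Results.MP_d5a1e1_nt.BitwiseClosed

open Filter

/-- The number of unordered representations of `n` as a sum of `h` elements of `A`. -/
noncomputable def r (A : Set ℕ) (h n : ℕ) : ℕ :=
  Set.ncard {s : Multiset ℕ | Multiset.card s = h ∧ (∀ a ∈ s, a ∈ A) ∧ s.sum = n}

/-- `A` is an asymptotic basis of order `h`. -/
def IsBasis (A : Set ℕ) (h : ℕ) : Prop :=
  ∃ n₀ : ℕ, ∀ n : ℕ, n₀ ≤ n →
    ∃ s : Multiset ℕ, Multiset.card s = h ∧ (∀ a ∈ s, a ∈ A) ∧ s.sum = n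

/-- `f` is affine over `F_2`: `f (x + y + z) = f x + f y + f z`. -/
def IsAffine {k : ℕ} (f : (Fin k → Bool) → Bool) : Prop :=
  ∀ x y z : Fin k → Bool, f (fun i => (x i ^^ y i) ^^ z i) = ((f x ^^ f y) ^^ f z)

/-- `f` depends on its `i`-th variable: changing it changes the value for some arguments. -/
def DependsOn {k : ℕ} (f : (Fin k → Bool) → Bool) (i : Fin k) : Prop :=
  ∃ x : Fin k → Bool, f (Function.update x i (!x i)) ≠ f x

/-- `B` is closed under the bitwise operation `f`. -/
def BitClosed {k : ℕ} (f : (Fin k → Bool) → Bool) (B : Set ℕ) : Prop :=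
  ∀ a : Fin k → ℕ, (∀ i, a i ∈ B) →
    ∃ b ∈ B, ∀ j, b.testBit j = f (fun i => (a i).testBit j)

/-- **The Erdős–Turán conjecture for bases closed under bitwise operations.** -/
theorem result :
    (∀ h : ℕ, 2 ≤ h → ∃ c : ℝ, 0 < c ∧ ∀ (A : Set ℕ) (m : ℕ) (B : Fin m → Set ℕ),
      A = ⋃ i, B i →
      (∀ i, ∃ (k : ℕ) (f : (Fin k → Bool) → Bool), ¬ IsAffine f ∧ BitClosed f (B i)) →
      IsBasis A h → ∃ᶠ n : ℕ in atTop, (n : ℝ) ^ c ≤ r A h n) ∧
    (∃ c : ℝ, 0 < c ∧ ∀ (A : Set ℕ) (m : ℕ) (B : Fin m → Set ℕ),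
      A = ⋃ i, B i →
      (∀ i, ∃ (k : ℕ) (f : (Fin k → Bool) → Bool),
        (∃ j j' : Fin k, j ≠ j' ∧ DependsOn f j ∧ DependsOn f j') ∧ BitClosed f (B i)) →
      IsBasis A 2 → ∃ᶠ n : ℕ in atTop, (n : ℝ) ^ c ≤ r A 2 n) ∧
    (∀ ε : ℝ, 0 < ε → ∃ c : ℝ, 0 < c ∧ ∀ (B : Set ℕ) (k : ℕ) (f : (Fin k → Bool) → Bool),
      ¬ IsAffine f → BitClosed f B →
      (∃ᶠ N : ℕ in atTop, (N : ℝ) ^ ε ≤ ((B ∩ Set.Iio N).ncard : ℝ)) →
      ∀ h : ℕ, 2 ≤ h → ∃ᶠ n : ℕ in atTop, (n : ℝ) ^ c ≤ r B h n) := by
  refine ⟨fun h hh => ?_, ?_, fun ε hε => ?_⟩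
  · obtain ⟨c, hc, H⟩ := Pool.Agent.H523R4.BC.union_nonaffine h hh
    exact ⟨c, hc, fun A m B hAB hB hbas => H A m B hAB hB hbas⟩
  · obtain ⟨c, hc, H⟩ := Pool.Agent.H523R4.BC.union_two
    exact ⟨c, hc, fun A m B hAB hB hbas => H A m B hAB hB hbas⟩
  · obtain ⟨c, hc, hc1, H⟩ := Pool.Agent.H523R4.BC.power_bit (min ε 1 / 2)
      (by have : 0 < min ε 1 := lt_min hε one_pos
          positivity) (by have := min_le_right ε 1; linarith)
    refine ⟨c / 8, by positivity, fun B k f hf hB hfreq h hh => ?_⟩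
    rw [frequently_atTop] at hfreq
    have hne : ∃ a0, a0 ∈ B := by
      obtain ⟨N, hN, h1⟩ := hfreq 1
      have h2 : (0 : ℝ) < (N : ℝ) ^ ε := by
        have : (0 : ℝ) < N := by exact_mod_cast hN
        positivity
      have h3 : (0 : ℝ) < ((B ∩ Set.Iio N).ncard : ℝ) := lt_of_lt_of_le h2 h1
      have h4 : 0 < (B ∩ Set.Iio N).ncard := by exact_mod_cast h3
      obtain ⟨b, hb⟩ := (Set.ncard_pos ((Set.finite_Iio N).subset Set.inter_subset_right)).1 h4
      exact ⟨b, hb.1⟩
    obtain ⟨a0, ha0⟩ := hne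
    refine Pool.Agent.H523R4.BC.finish hh ha0 hc hc1 ?_
    rw [eventually_atTop] at H
    obtain ⟨n1, H⟩ := H
    rw [frequently_atTop]
    intro n2
    obtain ⟨N, hN, h1⟩ := hfreq (2 ^ (n1 + n2 + 2))
    set n := Nat.log 2 N + 1 with hn
    have hN0 : N ≠ 0 := by
      have : 0 < 2 ^ (n1 + n2 + 2) := by positivity
      omega
    have h2 : n1 + n2 + 2 ≤ Nat.log 2 N := Nat.le_log_of_pow_le (by norm_num) hN
    have h3 : N < 2 ^ n := Nat.lt_pow_succ_log_self (by norm_num) N
    have h4 : 2 ^ (Nat.log 2 N) ≤ N := Nat.pow_log_le_self 2 hN0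
    have hmin : 0 < min ε 1 := lt_min hε one_pos
    have h5 : (2 : ℝ) ^ (min ε 1 / 2 * n) ≤ (N : ℝ) ^ ε := by
      have hN1 : (1 : ℝ) ≤ N := by exact_mod_cast Nat.one_le_iff_ne_zero.2 hN0
      calc (2 : ℝ) ^ (min ε 1 / 2 * n) ≤ (2 : ℝ) ^ (((Nat.log 2 N : ℕ) : ℝ) * min ε 1) := by
            refine Real.rpow_le_rpow_of_exponent_le (by norm_num) ?_
            have h6 : (n : ℝ) ≤ 2 * ((Nat.log 2 N : ℕ) : ℝ) := by
              have : n ≤ 2 * Nat.log 2 N := by omega
              exact_mod_cast this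
            nlinarith
        _ = ((2 : ℝ) ^ (Nat.log 2 N)) ^ (min ε 1) := by
            rw [Real.rpow_mul (by norm_num), Real.rpow_natCast]
        _ ≤ (N : ℝ) ^ (min ε 1) := by
            refine Real.rpow_le_rpow (by positivity) ?_ hmin.le
            exact_mod_cast h4
        _ ≤ (N : ℝ) ^ ε := Real.rpow_le_rpow_of_exponent_le hN1 (min_le_left _ _)
    have h6 : (B ∩ Set.Iio N).ncard ≤ (B ∩ Set.Iio (2 ^ n)).ncard :=
      Set.ncard_le_ncard (fun x hx => ⟨hx.1, lt_trans hx.2 h3⟩)
        ((Set.finite_Iio _).subset Set.inter_subset_right)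
    have h7 : ((B ∩ Set.Iio N).ncard : ℝ) ≤ ((B ∩ Set.Iio (2 ^ n)).ncard : ℝ) := by
      exact_mod_cast h6
    exact ⟨n, by omega, H n (by omega) k f hf B hB (h5.trans (h1.trans h7))⟩

end Pool.Agent.Results.MP_d5a1e1_nt.BitwiseClosed
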