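import Pool.Agent.H303R3.ET.ArcInt

set_option autoImplicit false

/-!
# MP_d5a1e1_nt: the energy of a basis with bounded representation function is spread over all arcs

Let `F` be the generating function of an asymptotic basis `A` of order `h` whose representation
function `r_{A,h}` is bounded.  By Parseval `(1 - ρ) ∫ |F (ρ e^{iθ})|^{2h} dθ` over the whole circle
is bounded above and below for `ρ → 1`.  Here: every arc carries a positive proportion.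
-/

namespace Pool.Agent.Results.MP_d5a1e1_nt.EnergyOnArcs

/-- `r_{A,h}(n)`: the number of `a₁ ≤ … ≤ a_h` in `A` with `a₁ + … + a_h = n`. -/
noncomputable def rep (A : Set ℕ) (h n : ℕ) : ℕ :=
  Set.ncard {a : Fin h → ℕ | Monotone a ∧ (∀ i, a i ∈ A) ∧ ∑ i, a i = n}

/-- `A` is an asymptotic basis of order `h`. -/
def IsBasis (A : Set ℕ) (h : ℕ) : Prop := ∃ n₀ : ℕ, ∀ n : ℕ, n₀ ≤ n → 1 ≤ rep A h n

/-- The generating function `∑_{a ∈ A} z^a`. -/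
noncomputable def F (A : Set ℕ) (z : ℂ) : ℂ := ∑' n : ℕ, Set.indicator A (fun n => z ^ n) n

theorem rep_eq (A : Set ℕ) (h n : ℕ) :
    rep A h n = Pool.Agent.H303R3.Rn A (Pool.Agent.H303R3.ET.Mo (k := h)) n := by
  classical
  unfold rep Pool.Agent.H303R3.Rn
  rw [← Set.ncard_coe_finset]
  congr 1
  ext a
  rw [Finset.mem_coe, Finset.mem_filter, Pool.Agent.H303R3.mem_tup]
  constructor
  · rintro ⟨h1, h2, h3⟩
    exact ⟨⟨h2, h3⟩, h1⟩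
  · rintro ⟨⟨h2, h3⟩, h1⟩
    exact ⟨h1, h2, h3⟩

theorem uniform (h : ℕ) (hh : 2 ≤ h) (K : ℕ) (α β : ℝ) (hαβ : α < β) :
    ∃ c : ℝ, 0 < c ∧ ∀ A : Set ℕ, IsBasis A h → (∀ n, rep A h n ≤ K) →
      ∃ ρ₀ : ℝ, ρ₀ < 1 ∧ ∀ ρ : ℝ, ρ₀ < ρ → ρ < 1 →
        c ≤ (1 - ρ) * ∫ θ in α..β, ‖F A (ρ * Complex.exp (θ * Complex.I))‖ ^ (2 * h) := by
  obtain ⟨c, hc, hA⟩ := Pool.Agent.H303R3.ET.arcs hh K hαβ
  refine ⟨c, hc, fun A h1 h2 => ?_⟩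
  obtain ⟨n₀, h1⟩ := h1
  obtain ⟨ρ₀, hρ₀, h3⟩ := hA A ⟨n₀, fun n hn => by rw [← rep_eq]; exact h1 n hn⟩
    (fun n => by rw [← rep_eq]; exact h2 n)
  refine ⟨ρ₀, hρ₀, fun ρ hρ hρ1 => ?_⟩
  have h4 := h3 ρ hρ hρ1
  have h5 : ∀ θ : ℝ, Pool.Agent.H303R3.ET.GF A (circleMap 0 ρ θ) =
      F A (ρ * Complex.exp (θ * Complex.I)) := by
    intro θ
    rw [circleMap_zero]
    rfl
  simp_rw [h5] at h4
  exact h4

/-- For every `h ≥ 2`: (1) for all `K` and `α < β` there is `c > 0` such that every asymptotic basis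
`A` of order `h` with `r_{A,h} ≤ K` satisfies `(1 - ρ) ∫_α^β |F_A(ρ e^{iθ})|^{2h} dθ ≥ c` for all
`ρ < 1` close to `1`; (2) hence `r_{A,h}` is unbounded for every asymptotic basis `A` of order `h`
such that the lower limit of the left side as `ρ → 1` is zero for some `α < β`. -/
theorem result (h : ℕ) (hh : 2 ≤ h) :
    (∀ (K : ℕ) (α β : ℝ), α < β → ∃ c : ℝ, 0 < c ∧ ∀ A : Set ℕ, IsBasis A h → (∀ n, rep A h n ≤ K) →
      ∃ ρ₀ : ℝ, ρ₀ < 1 ∧ ∀ ρ : ℝ, ρ₀ < ρ → ρ < 1 →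
        c ≤ (1 - ρ) * ∫ θ in α..β, ‖F A (ρ * Complex.exp (θ * Complex.I))‖ ^ (2 * h)) ∧
    (∀ A : Set ℕ, IsBasis A h →
      (∃ α β : ℝ, α < β ∧ ∀ ε : ℝ, 0 < ε → ∀ ρ₀ : ℝ, ρ₀ < 1 → ∃ ρ : ℝ, ρ₀ < ρ ∧ ρ < 1 ∧
        (1 - ρ) * ∫ θ in α..β, ‖F A (ρ * Complex.exp (θ * Complex.I))‖ ^ (2 * h) < ε) →
      ∀ C : ℕ, ∃ n : ℕ, C < rep A h n) := by
  refine ⟨fun K α β hαβ => uniform h hh K α β hαβ, fun A hA hex C => ?_⟩
  by_contra hcon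
  push Not at hcon
  obtain ⟨α, β, hαβ, hex⟩ := hex
  obtain ⟨c, hc, h1⟩ := uniform h hh C α β hαβ
  obtain ⟨ρ₀, hρ₀, h2⟩ := h1 A hA hcon
  obtain ⟨ρ, h3, h4, h5⟩ := hex c hc ρ₀ hρ₀
  have := h2 ρ h3 h4
  linarith

end Pool.Agent.Results.MP_d5a1e1_nt.EnergyOnArcs
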