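import Pool.Agent.H303R3.ET.HEnd
import Pool.Agent.H303R3.ET.SpecC

set_option autoImplicit false

/-!
# MP_d5a1e1_nt: bases whose representation function is close to a function with singular spectrum

Let `A` be an asymptotic basis of order `h ≥ 2`.  If `r_{A,h}` is within mean square distance
`κ < 1 - 1/h` (relative to the mean of `r_{A,h}`) of a function with singular spectrum, or more
generally of a function whose generating function has its `L²` mass on small sets of angles, then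
`r_{A,h}` is unbounded.
-/

open Filter Topology MeasureTheory Finset

namespace Pool.Agent.Results.MP_d5a1e1_nt.SingularSpectrum

local instance twoPiPos : Fact (0 < 2 * Real.pi) := Fact.mk Real.two_pi_pos

/-- `r_{A,h}(n)`: the number of `a₁ ≤ … ≤ a_h` in `A` with `a₁ + … + a_h = n`. -/
noncomputable def rep (A : Set ℕ) (h n : ℕ) : ℕ :=
  Set.ncard {a : Fin h → ℕ | Monotone a ∧ (∀ i, a i ∈ A) ∧ ∑ i, a i = n}

/-- `A` is an asymptotic basis of order `h`. -/
def IsBasis (A : Set ℕ) (h : ℕ) : Prop := ∃ n₀ : ℕ, ∀ n : ℕ, n₀ ≤ n → 1 ≤ rep A h n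

/-- `P` has singular spectrum: the limits `lim_N (1/N) ∑_{n<N} P(n+k) P(n)`, `k ≥ 0`, exist and are
the Fourier coefficients `∫ e^{ikx} dσ(x)` of a finite measure `σ` on the circle `ℝ/2πℤ` that is
singular with respect to Lebesgue measure. -/
def SingSpec (P : ℕ → ℝ) : Prop :=
  ∃ σ : Measure (AddCircle (2 * Real.pi)), IsFiniteMeasure σ ∧
    Measure.MutuallySingular σ volume ∧
    ∀ k : ℕ, Tendsto (fun N : ℕ => (((∑ n ∈ range N, P (n + k) * P n) / N : ℝ) : ℂ)) atTop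
      (𝓝 (∫ x, (fourier (k : ℤ) x : ℂ) ∂σ))

/-- `P` has concentrated generating function: for every `ε > 0` there are `ρ < 1` arbitrarily close
to `1` and a measurable set `V` of angles of measure at most `ε` such that
`(1 - ρ) ∫_{(0,2π] ∖ V} |∑_n P(n) ρ^n e^{inθ}|² dθ ≤ ε`. -/
def Concentrated (P : ℕ → ℝ) : Prop :=
  ∀ ε : ℝ, 0 < ε → ∃ᶠ ρ : ℝ in 𝓝[<] 1, ∃ V : Set ℝ, MeasurableSet V ∧
    volume V ≤ ENNReal.ofReal ε ∧ (1 - ρ) * ∫ θ in Set.Ioc 0 (2 * Real.pi) \ V,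
      ‖∑' n : ℕ, (P n : ℂ) * (ρ * Complex.exp (θ * Complex.I)) ^ n‖ ^ 2 ≤ ε

theorem conc_iff (P : ℕ → ℝ) : Concentrated P ↔ Pool.Agent.H303R3.ET.Conc P := by
  have h : ∀ (ρ θ : ℝ), (ρ * Complex.exp (θ * Complex.I) : ℂ) = circleMap 0 ρ θ := by
    intro ρ θ
    rw [circleMap_zero]
  unfold Concentrated Pool.Agent.H303R3.ET.Conc
  simp_rw [h]

theorem rep_eq (A : Set ℕ) (h n : ℕ) :
    rep A h n = Pool.Agent.H303R3.Rn A (Pool.Agent.H303R3.ET.Mo (k := h)) n := by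
  classical
  unfold rep Pool.Agent.H303R3.Rn
  rw [← Set.ncard_coe_finset]
  congr 1
  ext a
  rw [Finset.mem_coe, Finset.mem_filter, Pool.Agent.H303R3.mem_tup]
  constructor
  · rintro ⟨h1, h2, h3⟩
    exact ⟨⟨h2, h3⟩, h1⟩
  · rintro ⟨⟨h2, h3⟩, h1⟩
    exact ⟨h1, h2, h3⟩

/-- (1) Let `h ≥ 2`, let `A` be an asymptotic basis of order `h`, let `P : ℕ → ℝ` have concentrated
generating function and let `κ < 1 - 1/h`.  If
`∑_{n<N} (r_{A,h}(n) - P(n))² ≤ κ ∑_{n<N} r_{A,h}(n)` for all large `N`, then `r_{A,h}` is unbounded.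

(2) Every `P` with singular spectrum has concentrated generating function. -/
theorem result :
    (∀ (h : ℕ) (A : Set ℕ) (P : ℕ → ℝ) (κ : ℝ), 2 ≤ h → IsBasis A h → Concentrated P →
      κ < 1 - 1 / h →
      (∀ᶠ N : ℕ in atTop, ∑ n ∈ range N, ((rep A h n : ℝ) - P n) ^ 2 ≤
        κ * ∑ n ∈ range N, (rep A h n : ℝ)) →
      ∀ K : ℕ, ∃ n : ℕ, K < rep A h n) ∧
    (∀ P : ℕ → ℝ, SingSpec P → Concentrated P) := by
  constructor
  · intro h A P κ hh hA hP hκ hd K
    obtain ⟨j, rfl⟩ : ∃ j, h = j + 2 := ⟨h - 2, by omega⟩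
    obtain ⟨n₀, hA⟩ := hA
    by_contra hcon
    push Not at hcon
    simp_rw [rep_eq] at hA hcon hd
    refine Pool.Agent.H303R3.ET.h_main hA hcon ((conc_iff P).mp hP) ?_ hd
    push_cast at hκ
    exact hκ
  · rintro P ⟨σ, hfin, hσ, h⟩
    rw [conc_iff]
    exact Pool.Agent.H303R3.ET.spec_conc (σ := σ) h hσ

end Pool.Agent.Results.MP_d5a1e1_nt.SingularSpectrum
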